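import Mathlib
import Pool.Agent.N638.RO.Main

/-!
# A Rothberger space that is not ω-Rothberger, in ZFC

The points are those of Moore's L space (a subspace of the power of the circle with exponent `ω₁`,
formalised in the starting file `MP_b9a716_gt/MooreLSpace`). On two disjoint copies of this set we
take the topologies induced by the half-open arcs `[a, a + ε)` and `(a - ε, a]` respectively.

* Moore's oscillation theorem shows that both are hereditarily Lindelof: half-open arcs contain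
  open arcs.
* The projections to countably many coordinates are countable, so both are Rothberger.
* The sets `{x | x ξ ∈ [0, 1/2)}` (first copy) and `{x | x ξ ∈ (-1/2, 0]}` (second copy) form an
  ω-cover without a countable ω-subcover, as only countably many points vanish at `ξ`.
-/

set_option autoImplicit false

namespace Pool.Agent.Results.MP_f9bcb0_lc.RothbergerNotOmega

universe u

/-- `𝒰` is an open cover of `X`. -/
def IsOpenCover {X : Type u} [TopologicalSpace X] (𝒰 : Set (Set X)) : Prop :=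
  (∀ U ∈ 𝒰, IsOpen U) ∧ ⋃₀ 𝒰 = Set.univ

/-- `𝒰` is an `ω`-cover of `X`: an open cover with `X ∉ 𝒰` such that every finite subset of `X` is
contained in some member of `𝒰`. -/
def IsOmegaCover {X : Type u} [TopologicalSpace X] (𝒰 : Set (Set X)) : Prop :=
  IsOpenCover 𝒰 ∧ Set.univ ∉ 𝒰 ∧ ∀ F : Set X, F.Finite → ∃ U ∈ 𝒰, F ⊆ U

/-- `X` is Rothberger: the selection property `S₁(O, O)`. -/
def Rothberger (X : Type u) [TopologicalSpace X] : Prop :=
  ∀ 𝒰 : ℕ → Set (Set X), (∀ n, IsOpenCover (𝒰 n)) →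
    ∃ U : ℕ → Set X, (∀ n, U n ∈ 𝒰 n) ∧ IsOpenCover (Set.range U)

/-- `X` is `ω`-Rothberger: the selection property `S₁(Ω, Ω)`. -/
def OmegaRothberger (X : Type u) [TopologicalSpace X] : Prop :=
  ∀ 𝒰 : ℕ → Set (Set X), (∀ n, IsOmegaCover (𝒰 n)) →
    ∃ U : ℕ → Set X, (∀ n, U n ∈ 𝒰 n) ∧ IsOmegaCover (Set.range U)

open Pool.Agent.N638.RO Pool.Agent.Results.MP_b9a716_gt.MooreLSpace in
/-- In ZFC there is a Tychonoff, hereditarily Lindelof space `X` that is Rothberger but not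
`ω`-Rothberger; moreover its square is not Lindelof. -/
theorem result : ∃ (X : Type) (_ : TopologicalSpace X), T35Space X ∧
    HereditarilyLindelofSpace X ∧ Rothberger X ∧ ¬ OmegaRothberger X ∧
      ¬ LindelofSpace (X × X) := by
  obtain ⟨W, i1, i2, i3, i4, hW⟩ := exists_W
  obtain ⟨z, hz1, hz2⟩ := kron W hW
  have hz : Kr z := ⟨hz1, hz2⟩
  refine ⟨W × Bool, top z, t35 hz, ?_, ?_, ?_, ?_⟩
  · let _ := top z
    exact ⟨fun t _ => isLindelof hz t⟩
  · let _ := top z
    intro 𝒰 h𝒰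
    obtain ⟨U, h1, h2⟩ := rothberger hz 𝒰 (fun n => (h𝒰 n).1) fun n => (h𝒰 n).2
    refine ⟨U, h1, ?_, by rw [Set.sUnion_range, h2]⟩
    rintro _ ⟨n, rfl⟩
    exact (h𝒰 n).1 _ (h1 n)
  · let _ := top z
    intro h
    obtain ⟨U, h1, h2⟩ := h (fun _ => Set.range (Sp z)) fun _ => by
      refine ⟨⟨?_, ?_⟩, ?_, ?_⟩
      · rintro _ ⟨ξ, rfl⟩
        exact Sp_open ξ
      · rw [Set.eq_univ_iff_forall]
        intro x
        obtain ⟨ξ, hξ⟩ := Sp_fin hz {x}
        exact ⟨Sp z ξ, ⟨ξ, rfl⟩, hξ (by simp)⟩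
      · rintro ⟨ξ, hξ⟩
        obtain ⟨x, hx⟩ := Sp_count hz fun _ => ξ
        exact hx 0 fun b => by rw [hξ]; trivial
      · intro F hF
        obtain ⟨ξ, hξ⟩ := Sp_fin hz hF.toFinset
        exact ⟨Sp z ξ, ⟨ξ, rfl⟩, fun x hx => hξ (by simpa using hx)⟩
    choose ξ hξ using h1
    obtain ⟨x, hx⟩ := Sp_count hz ξ
    obtain ⟨_, ⟨n, rfl⟩, h3⟩ := h2.2.2 (Set.range fun b : Bool => (x, b)) (Set.finite_range _)
    refine hx n fun b => ?_
    rw [hξ n]
    exact h3 ⟨b, rfl⟩
  · let _ := top z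
    intro h
    obtain ⟨r, hr, hc⟩ := (isLindelof_univ (X := (W × Bool) × (W × Bool))).elim_countable_subcover
      (fun ξ : W => Sp z ξ ×ˢ Sp z ξ) (fun ξ => (Sp_open ξ).prod (Sp_open ξ)) (by
        classical
        rintro ⟨p, q⟩ -
        obtain ⟨ξ, hξ⟩ := Sp_fin hz {p, q}
        exact Set.mem_iUnion.2 ⟨ξ, hξ (by simp), hξ (by simp)⟩)
    obtain ⟨x, hx⟩ := Om.bdd r hr
    obtain ⟨ξ, hξ, h1, h2⟩ := Set.mem_iUnion₂.1 (hc (show ((x, true), (x, false)) ∈ _ from trivial))
    refine absurd (Sp_pair hz (ξ := ξ) (x := x) fun b => ?_) (not_le.2 (hx ξ hξ))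
    cases b
    · exact h2
    · exact h1

end Pool.Agent.Results.MP_f9bcb0_lc.RothbergerNotOmega
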